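import Mathlib
import Pool.Agent.N989.MK.Push

/-!
# Reflection positivity of product measures
-/

open MeasureTheory Pool.Agent.N989.MK

namespace Pool.Agent.N109.RP

set_option linter.unusedSectionVars false

noncomputable section

variable {G : Type*} [Group G] [TopologicalSpace G] [IsTopologicalGroup G] [CompactSpace G]
  [MeasurableSpace G] [BorelSpace G] [SecondCountableTopology G]
  {μ : Measure G} [IsProbabilityMeasure μ] [μ.IsHaarMeasure] [μ.IsMulRightInvariant]
  [μ.IsInvInvariant]

variable {ι : Type*} [Fintype ι]

open Classical in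
/-- the reflection of a field -/
def thet (R : ι → ι) (ε : ι → Prop) (U : ι → G) (e : ι) : G :=
  if ε e then (U (R e))⁻¹ else U (R e)

omit [IsTopologicalGroup G] [CompactSpace G] [MeasurableSpace G] [BorelSpace G]
  [SecondCountableTopology G] [Fintype ι] in
lemma thet_cont [ContinuousInv G] (R : ι → ι) (ε : ι → Prop) :
    Continuous fun U : ι → G => thet R ε U := by
  classical
  refine continuous_pi fun e => ?_
  unfold thet
  by_cases h : ε e
  · simp only [h, if_true]
    exact (continuous_apply _).inv
  · simp only [h, if_false]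
    exact continuous_apply _

/-- gluing of two independent fields -/
lemma mp_glue (p : ι → Prop) [DecidablePred p] (R : ι → ι) (hR : ∀ e, ¬ p e → R (R e) = e) :
    MeasurePreserving (fun P : (ι → G) × (ι → G) => fun e => if p e then P.1 e else P.2 (R e))
      ((Measure.pi fun _ : ι => μ).prod (Measure.pi fun _ : ι => μ))
      (Measure.pi fun _ : ι => μ) := by
  let φ : ((ι → G) × (ι → G)) →* (ι → G) :=
    { toFun := fun P e => if p e then P.1 e else P.2 (R e)
      map_one' := by
        funext e
        by_cases h : p e <;> simp [h]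
      map_mul' := fun P Q => by
        funext e
        by_cases h : p e <;> simp [h] }
  have hφ : Continuous φ := by
    refine continuous_pi fun e => ?_
    change Continuous fun P : (ι → G) × (ι → G) => if p e then P.1 e else P.2 (R e)
    by_cases h : p e
    · simp only [h, if_true]
      fun_prop
    · simp only [h, if_false]
      fun_prop
  have hs : Function.Surjective φ := fun T => ⟨(T, fun e => T (R e)), by
    funext e
    change (if p e then T e else T (R (R e))) = T e
    by_cases h : p e
    · rw [if_pos h]
    · rw [if_neg h, hR e h]⟩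
  have i1 : (Measure.pi fun _ : ι => μ).IsMulLeftInvariant := inferInstance
  have i3 := Measure.prod.instIsMulLeftInvariant (μ := Measure.pi fun _ : ι => μ)
    (ν := Measure.pi fun _ : ι => μ)
  exact mp_hom ((Measure.pi fun _ : ι => μ).prod (Measure.pi fun _ : ι => μ))
    (Measure.pi fun _ : ι => μ) φ hφ hs

/-- **Reflection positivity of product measures** -/
theorem rp_abs {R : ι → ι} {ε L M : ι → Prop} (hR : ∀ e, R (R e) = e) (hε : ∀ e, ε (R e) ↔ ε e)
    (hLR : ∀ e, L e → ¬ L (R e)) (hLM : ∀ e, L e → ¬ M e) (hM : ∀ e, M e → R e = e ∧ ¬ ε e)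
    {f : (ι → G) → ℝ} (hf : Continuous f)
    (hdep : ∀ U V : ι → G, (∀ e, L e ∨ M e → U e = V e) → f U = f V) :
    0 ≤ ∫ U : ι → G, f U * f (thet R ε U) ∂(Measure.pi fun _ => μ) := by
  classical
  have hc : Continuous fun U : ι → G => f U * f (thet R ε U) :=
    hf.mul (hf.comp (thet_cont R ε))
  -- the inversion of the coordinates
  obtain ⟨J, hJ⟩ : ∃ J : (ι → G) → ι → G, J = fun T e =>
    (if ¬ (L e ∨ M e) ∧ ε e then (fun x : G => x⁻¹) else id) (T e) := ⟨_, rfl⟩
  have mJ : MeasurePreserving J (Measure.pi fun _ => μ) (Measure.pi fun _ => μ) := by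
    rw [hJ]
    refine measurePreserving_pi (fun _ => μ) (fun _ => μ) fun e => ?_
    by_cases h : ¬ (L e ∨ M e) ∧ ε e
    · rw [if_pos h]
      exact Measure.measurePreserving_inv μ
    · rw [if_neg h]
      exact MeasurePreserving.id μ
  have m1 := mp_glue (μ := μ) (fun e => L e ∨ M e) R fun e _ => hR e
  have m2 := mp_glue (μ := μ) M id fun e _ => rfl
  rw [int_mp (mJ.comp m1) hc]
  -- the glued field
  have e1 : ∀ P : (ι → G) × (ι → G), f ((J ∘ fun P : (ι → G) × (ι → G) => fun e =>
      if L e ∨ M e then P.1 e else P.2 (R e)) P) = f P.1 := by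
    intro P
    refine hdep _ _ fun e he => ?_
    rw [hJ]
    simp only [Function.comp_apply]
    rw [if_neg (fun h => h.1 he), if_pos he]
    rfl
  have e2 : ∀ P : (ι → G) × (ι → G), f (thet R ε ((J ∘ fun P : (ι → G) × (ι → G) => fun e =>
      if L e ∨ M e then P.1 e else P.2 (R e)) P)) = f fun e => if M e then P.1 e else P.2 e := by
    intro P
    refine hdep _ _ fun e he => ?_
    rw [hJ]
    unfold thet
    simp only [Function.comp_apply]
    rcases he with he | he
    · have h1 : ¬ (L (R e) ∨ M (R e)) := by
        rintro (h | h)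
        · exact hLR e he h
        · have h2 := (hM _ h).1
          rw [hR] at h2
          rw [← h2] at h
          exact hLM e he h
      rw [if_neg (hLM e he), if_neg h1, hR]
      by_cases h3 : ε e
      · rw [if_pos h3, if_pos ⟨h1, (hε e).2 h3⟩, inv_inv]
      · rw [if_neg h3, if_neg fun h => h3 ((hε e).1 h.2)]
        rfl
    · obtain ⟨h1, h2⟩ := hM e he
      rw [h1, if_neg h2, if_pos he, if_pos (Or.inr he), if_neg fun h => h.1 (Or.inr he)]
      rfl
  have e3 : ∀ P : (ι → G) × (ι → G), (fun U : ι → G => f U * f (thet R ε U))
      ((J ∘ fun P : (ι → G) × (ι → G) => fun e => if L e ∨ M e then P.1 e else P.2 (R e)) P) =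
      f P.1 * f fun e => if M e then P.1 e else P.2 e := fun P => by
    beta_reduce
    rw [e1, e2]
  simp only [e3]
  -- the conditional expectation
  have cg : Continuous fun P : (ι → G) × (ι → G) => (fun e => if M e then P.1 e else P.2 e) := by
    refine continuous_pi fun e => ?_
    by_cases h : M e
    · simp only [h, if_true]
      fun_prop
    · simp only [h, if_false]
      fun_prop
  obtain ⟨g, hg⟩ : ∃ g : (ι → G) → ℝ, g = fun U => ∫ V : ι → G,
    f (fun e => if M e then U e else V e) ∂(Measure.pi fun _ => μ) := ⟨_, rfl⟩
  have hgc : Continuous g := by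
    rw [hg]
    have h1 : Continuous fun P : (ι → G) × (ι → G) => f fun e => if M e then P.1 e else P.2 e :=
      hf.comp cg
    exact continuous_parametric_integral_of_continuous (μ := Measure.pi fun _ : ι => μ)
      (s := Set.univ) (f := fun U V => f fun e => if M e then U e else V e) h1 isCompact_univ |>.congr
      fun U => by rw [Measure.restrict_univ]
  have hgM : ∀ U V : ι → G, g (fun e => if M e then U e else V e) = g U := by
    intro U V
    rw [hg]
    beta_reduce
    refine integral_congr_ae (Filter.Eventually.of_forall fun W => ?_)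
    beta_reduce
    congr 1
    funext e
    by_cases h : M e
    · simp only [h, if_true]
    · simp only [h, if_false]
  have i1 : Continuous fun P : (ι → G) × (ι → G) => f P.1 * f fun e =>
      if M e then P.1 e else P.2 e := (hf.comp continuous_fst).mul (hf.comp cg)
  rw [integral_prod _ (i1.integrable_of_hasCompactSupport
    (HasCompactSupport.of_compactSpace _))]
  have e4 : ∀ U : ι → G, ∫ V : ι → G, f U * f (fun e => if M e then U e else V e)
      ∂(Measure.pi fun _ => μ) = f U * g U := by
    intro U
    rw [integral_const_mul, hg]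
  simp only [e4]
  have hfg : Continuous fun U => f U * g U := hf.mul hgc
  rw [int_mp m2 hfg]
  have i2 : Continuous fun P : (ι → G) × (ι → G) => (fun U => f U * g U) (fun e =>
      if M e then P.1 e else P.2 (id e)) := hfg.comp cg
  rw [integral_prod _ (i2.integrable_of_hasCompactSupport
    (HasCompactSupport.of_compactSpace _))]
  refine integral_nonneg fun U => ?_
  have e5 : ∀ V : ι → G, (fun U => f U * g U) (fun e => if M e then U e else V (id e)) =
      g U * f (fun e => if M e then U e else V e) := by
    intro V
    beta_reduce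
    simp only [id]
    rw [hgM, mul_comm]
  beta_reduce at e5 ⊢
  simp only [e5]
  rw [integral_const_mul]
  have e6 : ∫ V : ι → G, f (fun e => if M e then U e else V e) ∂(Measure.pi fun _ => μ) = g U := by
    rw [hg]
  rw [e6]
  exact mul_self_nonneg _

end

end Pool.Agent.N109.RP
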