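import Mathlib
import Pool.Agent.N991.MK.GapDefs

/-!
# The sheets of the hierarchical squares
-/

open Pool.Agent.N989.MK Pool.Agent.N991.MK

namespace Pool.Agent.N109.RP

/-- The edges of a sheet of the square of level `m + 1`, with the boundary of the square: the edges
of the boundary, the middle paths of the sheet and the inner edges of its four quarters. -/
abbrev Sh (m : ℕ) := BE (m + 1) ⊕ ((Fin 4 × Fin (2 ^ m)) ⊕ (Fin 4 × IE m))

/-- The edge of the square of level `m + 1` which is the edge `e` of the sheet `s`. -/
def sh {m : ℕ} (s : Fin 4) : Sh m → Ed (m + 1)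
  | .inl e => .inl e
  | .inr (.inl (j, c)) => .inr (.inl (s, j, c))
  | .inr (.inr (q, e)) => .inr (.inr (s, q, e))

/-- The field in the sheet `s` of the block `β`, a square of level `m + 1`. -/
def shf {G : Type*} {m d : ℕ} (β : Pq d) (s : Fin 4) (U : Ed (m + 1 + d) → G) : Sh m → G :=
  fun e => U (blk β (sh s e))

end Pool.Agent.N109.RP
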