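import Mathlib
import Pool.Agent.N989.MK.Defs

/-!
# The reflection of the hierarchical squares at the vertical middle line
-/

open Pool.Agent.N989.MK

namespace Pool.Agent.N109.RP

/-- The reflection at the vertical middle line of the inner edges of the square of level `n`. -/
def rfi : ∀ n : ℕ, IE n → IE n
  | 0, e => e
  | _ + 1, .inl (s, j, k) => .inl (s, ![1, 0, 2, 3] j, if j = 0 ∨ j = 1 then k.rev else k)
  | n + 1, .inr (s, q, e) => .inr (s, ![1, 0, 3, 2] q, rfi n e)

/-- The reflection at the vertical middle line of the edges of the square of level `n`. -/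
def rfe {n : ℕ} : Ed n → Ed n
  | .inl (i, k) => .inl (![0, 3, 2, 1] i, if i = 0 ∨ i = 2 then k.rev else k)
  | .inr e => .inr (rfi n e)

/-- The horizontal inner edges. -/
def hzi : ∀ n : ℕ, IE n → Prop
  | 0, _ => False
  | _ + 1, .inl (_, j, _) => j = 0 ∨ j = 1
  | n + 1, .inr (_, _, e) => hzi n e

/-- The horizontal edges. -/
def hz {n : ℕ} : Ed n → Prop
  | .inl (i, _) => i = 0 ∨ i = 2
  | .inr e => hzi n e

open Classical in
/-- The reflected field: the reflection reverses the horizontal edges. -/
noncomputable def rfu {G : Type*} [Group G] {n : ℕ} (U : Ed n → G) (e : Ed n) : G :=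
  if hz e then (U (rfe e))⁻¹ else U (rfe e)

end Pool.Agent.N109.RP
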