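import Mathlib
import Pool.Agent.N109.RP.Defs2
import Pool.Agent.N109.RP.Abs
import Pool.Agent.N989.MK.Part

/-!
# Reflection positivity: the reflection at the vertical middle line
-/

open MeasureTheory Pool.Agent.N989.MK

namespace Pool.Agent.N109.RP

set_option linter.unusedSectionVars false

noncomputable section

/-! ### The reflection of the edges -/

/-- the reflection of the quarters -/
def rq : Fin 4 → Fin 4 := ![1, 0, 3, 2]

lemma rq_rq (q : Fin 4) : rq (rq q) = q := by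
  fin_cases q <;> rfl

lemma rfi_rfi : ∀ (n : ℕ) (e : IE n), rfi n (rfi n e) = e
  | 0, e => nomatch e
  | n + 1, .inl (s, j, k) => by
    fin_cases j <;> simp [rfi] <;> rfl
  | n + 1, .inr (s, q, e) => by
    have ih := rfi_rfi n e
    fin_cases q <;> simp [rfi, ih] <;> rfl

lemma rfe_rfe {n : ℕ} : ∀ e : Ed n, rfe (rfe e) = e
  | .inl (i, k) => by
    fin_cases i <;> simp [rfe]
  | .inr e => by simp [rfe, rfi_rfi]

lemma hzi_rfi : ∀ (n : ℕ) (e : IE n), hzi n (rfi n e) ↔ hzi n e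
  | 0, e => nomatch e
  | n + 1, .inl (s, j, k) => by
    fin_cases j <;> simp [rfi, hzi]
  | n + 1, .inr (s, q, e) => by
    have ih := hzi_rfi n e
    simp [rfi, hzi, ih]

lemma hz_rfe {n : ℕ} : ∀ e : Ed n, hz (rfe e) ↔ hz e
  | .inl (i, k) => by
    fin_cases i <;> simp [rfe, hz]
  | .inr e => by simp [rfe, hz, hzi_rfi]

lemma pos_rev0 {n : ℕ} (k : Fin (2 ^ n)) : (pos 0 k).rev = pos 1 k.rev := by
  ext
  simp only [pos, Fin.val_rev]
  have h1 := k.2
  rw [pow_succ]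
  simp
  omega

lemma pos_rev1 {n : ℕ} (k : Fin (2 ^ n)) : (pos 1 k).rev = pos 0 k.rev := by
  ext
  simp only [pos, Fin.val_rev]
  have h1 := k.2
  rw [pow_succ]
  simp
  omega

lemma rfe_emb {n : ℕ} (s q : Fin 4) : ∀ e : Ed n, rfe (emb s q e) = emb s (rq q) (rfe e)
  | .inl (i, k) => by
    fin_cases q <;> fin_cases i <;> simp [rfe, rfi, emb, side, rq, pos_rev0, pos_rev1]
  | .inr e => rfl

lemma hz_emb {n : ℕ} (s q : Fin 4) : ∀ e : Ed n, hz (emb s q e) ↔ hz e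
  | .inl (i, k) => by
    fin_cases q <;> fin_cases i <;> simp [hz, hzi, emb, side]
  | .inr e => Iff.rfl

/-- the left half -/
def Lf {n : ℕ} : Ed (n + 1) → Prop
  | .inl (i, k) => i = 3 ∨ ((i = 0 ∨ i = 2) ∧ (k : ℕ) < 2 ^ n)
  | .inr (.inl (_, j, _)) => j = 0
  | .inr (.inr (_, q, _)) => q = 0 ∨ q = 2

/-- the middle line -/
def Mf {n : ℕ} : Ed (n + 1) → Prop
  | .inl _ => False
  | .inr (.inl (_, j, _)) => j = 2 ∨ j = 3
  | .inr (.inr _) => False

lemma Lf_rfe {n : ℕ} : ∀ e : Ed (n + 1), Lf e → ¬ Lf (rfe e)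
  | .inl (i, k) => by
    have h1 := k.2
    fin_cases i <;> simp [Lf, rfe, Fin.val_rev, pow_succ] <;> omega
  | .inr (.inl (s, j, k)) => by
    fin_cases j <;> simp [Lf, rfe, rfi]
  | .inr (.inr (s, q, e)) => by
    fin_cases q <;> simp [Lf, rfe, rfi]

lemma Lf_Mf {n : ℕ} : ∀ e : Ed (n + 1), Lf e → ¬ Mf e
  | .inl (i, k) => by simp [Mf]
  | .inr (.inl (s, j, k)) => by
    fin_cases j <;> simp [Lf, Mf]
  | .inr (.inr (s, q, e)) => by simp [Mf]

lemma Mf_rfe {n : ℕ} : ∀ e : Ed (n + 1), Mf e → rfe e = e ∧ ¬ hz e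
  | .inl (i, k) => by simp [Mf]
  | .inr (.inl (s, j, k)) => by
    fin_cases j <;> simp [Mf, rfe, rfi, hz, hzi]
  | .inr (.inr (s, q, e)) => by simp [Mf]

lemma Lf_emb {n : ℕ} (s : Fin 4) (b : Fin 2) : ∀ e : Ed n,
    Lf (emb s ((![0, 2] : Fin 2 → Fin 4) b) e) ∨ Mf (emb s ((![0, 2] : Fin 2 → Fin 4) b) e)
  | .inl (i, k) => by
    have h1 := k.2
    fin_cases b <;> fin_cases i <;> simp [Lf, Mf, emb, side, pos]
  | .inr e => by
    fin_cases b <;> simp [Lf, emb]

/-! ### The reflection of the fields -/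

section

variable {G : Type*} [Group G]

lemma rfu_emb {n : ℕ} (U : Ed (n + 1) → G) (s q : Fin 4) :
    (rfu fun e : Ed n => U (emb s q e)) = fun e => rfu U (emb s (rq q) e) := by
  funext e
  unfold rfu
  rw [rfe_emb, rq_rq]
  by_cases h : hz e
  · rw [if_pos h, if_pos ((hz_emb s (rq q) e).2 h)]
  · rw [if_neg h, if_neg fun h1 => h ((hz_emb s (rq q) e).1 h1)]

/-- the reflection of the plaquettes -/
def rfp : ∀ n : ℕ, Pq n → Pq n
  | 0, p => p
  | n + 1, (s, q, p) => (s, rq q, rfp n p)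

lemma rfp_rfp : ∀ (n : ℕ) (p : Pq n), rfp n (rfp n p) = p
  | 0, _ => rfl
  | n + 1, (s, q, p) => by
    have ih := rfp_rfp n p
    change ((s, rq (rq q), rfp n (rfp n p)) : Fin 4 × Fin 4 × Pq n) = (s, q, p)
    rw [ih, rq_rq]

lemma hol_rfu : ∀ (n : ℕ) (U : Ed n → G) (p : Pq n),
    ∃ g, hol (rfu U) p = g * (hol U (rfp n p))⁻¹ * g⁻¹
  | 0, U, p => by
    refine ⟨(U (.inl (0, 0)))⁻¹, ?_⟩
    have h0 : rfu U (bd 0 p 0) = (U (.inl (0, 0)))⁻¹ := by
      unfold rfu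
      rw [if_pos (show hz (bd 0 p 0) from Or.inl rfl)]
      rfl
    have h1 : rfu U (bd 0 p 1) = U (.inl (3, 0)) := by
      unfold rfu
      rw [if_neg (show ¬ hz (bd 0 p 1) by simp [bd, hz])]
      rfl
    have h2 : rfu U (bd 0 p 2) = (U (.inl (2, 0)))⁻¹ := by
      unfold rfu
      rw [if_pos (show hz (bd 0 p 2) from Or.inr rfl)]
      rfl
    have h3 : rfu U (bd 0 p 3) = U (.inl (1, 0)) := by
      unfold rfu
      rw [if_neg (show ¬ hz (bd 0 p 3) by simp [bd, hz])]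
      rfl
    have e1 : hol U (rfp 0 p) = U (.inl (0, 0)) * U (.inl (1, 0)) * (U (.inl (2, 0)))⁻¹ *
        (U (.inl (3, 0)))⁻¹ := rfl
    have e2 : hol (rfu U) p = rfu U (bd 0 p 0) * rfu U (bd 0 p 1) * (rfu U (bd 0 p 2))⁻¹ *
        (rfu U (bd 0 p 3))⁻¹ := rfl
    rw [e1, e2, h0, h1, h2, h3]
    group
  | n + 1, U, (s, q, p) => by
    obtain ⟨g, hg⟩ := hol_rfu n (fun e => U (emb s (rq q) e)) p
    refine ⟨g, ?_⟩
    have e1 : hol (rfu U) ((s, q, p) : Pq (n + 1)) = hol (fun e => rfu U (emb s q e)) p := rfl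
    have e2 := rfu_emb U s (rq q)
    rw [rq_rq] at e2
    rw [e1, ← e2, hg]
    rfl

lemma wt_rfu {w : G → ℝ} (hc : ∀ g x, w (g * x * g⁻¹) = w x) (hs : ∀ x, w x⁻¹ = w x) {n : ℕ}
    (U : Ed n → G) : wt w (rfu U) = wt w U := by
  unfold wt
  refine Fintype.prod_equiv (Function.Involutive.toPerm (rfp n) (rfp_rfp n)) _ _ fun p => ?_
  obtain ⟨g, hg⟩ := hol_rfu n U p
  rw [hg, hc, hs]
  rfl

lemma wt_quarters (w : G → ℝ) {n : ℕ} (U : Ed (n + 1) → G) :
    wt w U = ∏ s : Fin 4, ∏ q : Fin 4, wt w fun e => U (emb s q e) := by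
  unfold wt
  change ∏ p : Fin 4 × Fin 4 × Pq n, w (hol U (p : Pq (n + 1))) = _
  rw [Fintype.prod_prod_type]
  refine Finset.prod_congr rfl fun s _ => ?_
  rw [Fintype.prod_prod_type]
  rfl

end

variable {G : Type*} [Group G] [TopologicalSpace G] [IsTopologicalGroup G] [CompactSpace G]
  [MeasurableSpace G] [BorelSpace G] [SecondCountableTopology G]
  {μ : Measure G} [IsProbabilityMeasure μ] [μ.IsHaarMeasure] [μ.IsMulRightInvariant]
  [μ.IsInvInvariant]

/-- **Reflection positivity, for the reflection at the vertical middle line of the square** -/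
theorem rp_geo {w : G → ℝ} (hw : Continuous w) (hp : ∀ x, 0 ≤ w x)
    (hc : ∀ g x, w (g * x * g⁻¹) = w x) (hs : ∀ x, w x⁻¹ = w x) (n : ℕ)
    {O : (Fin 4 → Fin 2 → Ed n → G) → ℝ} (hO : Continuous O) :
    0 ≤ Ex μ w (n + 1) (fun U => O (fun s b e => U (emb s ((![0, 2] : Fin 2 → Fin 4) b) e)) *
      O (fun s b => rfu fun e => U (emb s ((![1, 3] : Fin 2 → Fin 4) b) e))) := by
  have hwt : ∀ (n : ℕ) (U : Ed n → G), 0 ≤ wt w U := fun n U => by
    unfold wt
    exact Finset.prod_nonneg fun p _ => hp _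
  obtain ⟨f, hf⟩ : ∃ f : (Ed (n + 1) → G) → ℝ, f = fun U =>
    O (fun s b e => U (emb s ((![0, 2] : Fin 2 → Fin 4) b) e)) *
      ∏ s : Fin 4, (wt w (fun e => U (emb s 0 e)) * wt w (fun e => U (emb s 2 e))) := ⟨_, rfl⟩
  have hfc : Continuous f := by
    rw [hf]
    refine (hO.comp ?_).mul (continuous_finsetProd _ fun s _ => ?_)
    · exact continuous_pi fun s => continuous_pi fun b => continuous_pi fun e =>
        continuous_apply _
    · exact ((wt_cont hw).comp (continuous_pi fun e => continuous_apply _)).mul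
        ((wt_cont hw).comp (continuous_pi fun e => continuous_apply _))
  have h1 := rp_abs (μ := μ) (R := rfe) (ε := hz) (L := Lf (n := n)) (M := Mf) rfe_rfe hz_rfe
    Lf_rfe Lf_Mf Mf_rfe hfc fun U V hUV => by
      rw [hf]
      beta_reduce
      have e1 : ∀ (s : Fin 4) (b : Fin 2) (e : Ed n),
          U (emb s ((![0, 2] : Fin 2 → Fin 4) b) e) = V (emb s ((![0, 2] : Fin 2 → Fin 4) b) e) :=
        fun s b e => hUV _ (Lf_emb s b e)
      have e2 : ∀ (s : Fin 4) (e : Ed n), U (emb s 0 e) = V (emb s 0 e) := fun s e => e1 s 0 e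
      have e3 : ∀ (s : Fin 4) (e : Ed n), U (emb s 2 e) = V (emb s 2 e) := fun s e => e1 s 1 e
      simp only [e1, e2, e3]
  unfold Ex
  refine div_nonneg ?_ (integral_nonneg fun U => hwt _ _)
  refine h1.trans (le_of_eq ?_)
  refine integral_congr_ae (Filter.Eventually.of_forall fun U => ?_)
  have e0 : thet rfe hz U = rfu U := rfl
  have e1 : (fun (s : Fin 4) (b : Fin 2) (e : Ed n) => rfu U (emb s ((![0, 2] : Fin 2 → Fin 4) b) e)) =
      fun s b => rfu fun e => U (emb s ((![1, 3] : Fin 2 → Fin 4) b) e) := by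
    funext s b
    fin_cases b
    · exact (rfu_emb U s 1).symm
    · exact (rfu_emb U s 3).symm
  have e2 : ∀ s : Fin 4, wt w (fun e : Ed n => rfu U (emb s 0 e)) =
      wt w (fun e : Ed n => U (emb s 1 e)) := fun s => by
    rw [← wt_rfu hc hs fun e : Ed n => U (emb s 1 e), rfu_emb U s 1]
    rfl
  have e3 : ∀ s : Fin 4, wt w (fun e : Ed n => rfu U (emb s 2 e)) =
      wt w (fun e : Ed n => U (emb s 3 e)) := fun s => by
    rw [← wt_rfu hc hs fun e : Ed n => U (emb s 3 e), rfu_emb U s 3]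
    rfl
  rw [hf]
  beta_reduce
  rw [e0, e1, wt_quarters w U]
  simp only [e2, e3, Fin.prod_univ_four]
  ring

end

end Pool.Agent.N109.RP
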