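import Mathlib
import Pool.Agent.N109.RP.Defs
import Pool.Agent.N991.MK.Gap4

/-!
# Reflection positivity: the exchange of the sheets
-/

open MeasureTheory Pool.Agent.N989.MK Pool.Agent.N991.MK

namespace Pool.Agent.N109.RP

set_option linter.unusedSectionVars false

noncomputable section

section

variable {G : Type*} [Group G]

/-- the edges of a quarter of a sheet -/
def shq {m : ℕ} (q : Fin 4) : Ed m → Sh m
  | .inl (i, k) => match side q i with
    | .inl (j, h) => .inl (j, pos h k)
    | .inr j => .inr (.inl (j, k))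
  | .inr e => .inr (.inr (q, e))

lemma sh_shq {m : ℕ} (s q : Fin 4) : ∀ e : Ed m, sh s (shq q e) = emb s q e
  | .inl (i, k) => by
    simp only [shq, emb]
    generalize side q i = x
    rcases x with ⟨j, h⟩ | j <;> rfl
  | .inr e => rfl

/-- the weight of a sheet -/
def shw (w : G → ℝ) {m : ℕ} (X : Sh m → G) : ℝ := ∏ q : Fin 4, wt w fun e => X (shq q e)

lemma wt_sh (w : G → ℝ) {m : ℕ} (U : Ed (m + 1) → G) :
    wt w U = ∏ s : Fin 4, shw w fun e => U (sh s e) := by
  unfold shw wt
  change ∏ p : Fin 4 × Fin 4 × Pq m, w (hol U (p : Pq (m + 1))) = _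
  rw [Fintype.prod_prod_type]
  refine Finset.prod_congr rfl fun s _ => ?_
  rw [Fintype.prod_prod_type]
  refine Finset.prod_congr rfl fun q _ => ?_
  refine Finset.prod_congr rfl fun p _ => ?_
  congr 1
  unfold hol
  simp only [sh_shq]
  rfl

end

variable {G : Type*} [Group G] [TopologicalSpace G] [IsTopologicalGroup G] [CompactSpace G]
  [MeasurableSpace G] [BorelSpace G] [SecondCountableTopology G]
  {μ : Measure G} [IsProbabilityMeasure μ] [μ.IsHaarMeasure] [μ.IsMulRightInvariant]
  [μ.IsInvInvariant]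

/-- **nonnegative blocks** -/
theorem Ib_wB_nonneg {m : ℕ} : ∀ (j : ℕ) {W : Pq j → (Ed m → G) → ℝ},
    (∀ γ, Continuous (W γ)) → (∀ γ V, 0 ≤ Ib μ (W γ) V) →
    ∀ V : BE (m + j) → G, 0 ≤ Ib μ (wB W) V
  | 0, W, hW, hI, V => by
    have h1 : wB W = W () := by
      funext U
      unfold wB
      exact Fintype.prod_unique (ι := Unit) fun γ => W γ fun e => U (blk (j := 0) γ e)
    rw [h1]
    exact hI () V
  | j + 1, W, hW, hI, V => by
    have ih := fun (s r : Fin 4) => Ib_wB_nonneg j (W := fun γ => W (s, r, γ))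
      (fun γ => hW (s, r, γ)) (fun γ => hI (s, r, γ))
    unfold Ib
    -- splitting of the inner edges
    let φ : ((Fin 4 → Fin 4 → Fin (2 ^ (m + j)) → G) × ((Fin 4 × Fin 4) → IE (m + j) → G)) →*
        (IE (m + j + 1) → G) :=
      { toFun := fun p => (Sum.elim (fun x => p.1 x.1 x.2.1 x.2.2)
          (fun x => p.2 (x.1, x.2.1) x.2.2) :
          (Fin 4 × Fin 4 × Fin (2 ^ (m + j))) ⊕ (Fin 4 × Fin 4 × IE (m + j)) → G)
        map_one' := by
          funext e
          rcases e with e | e <;> rfl
        map_mul' := fun p q => by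
          funext e
          rcases e with e | e <;> rfl }
    have hφ : Continuous φ := by
      refine continuous_pi fun e => ?_
      rcases e with ⟨a, b, c⟩ | ⟨a, b, c⟩
      · change Continuous fun p : (Fin 4 → Fin 4 → Fin (2 ^ (m + j)) → G) ×
          ((Fin 4 × Fin 4) → IE (m + j) → G) => p.1 a b c
        fun_prop
      · change Continuous fun p : (Fin 4 → Fin 4 → Fin (2 ^ (m + j)) → G) ×
          ((Fin 4 × Fin 4) → IE (m + j) → G) => p.2 (a, b) c
        fun_prop
    have hs : Function.Surjective φ := fun I => ⟨(fun a b c => I (.inl (a, b, c)),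
      fun x e => I (.inr (x.1, x.2, e))), by
        funext e
        rcases e with e | e <;> rfl⟩
    have i1 : (Measure.pi fun _ : Fin (2 ^ (m + j)) => μ).IsMulLeftInvariant := inferInstance
    have i2 : (Measure.pi fun _ : Fin 4 => Measure.pi fun _ : Fin (2 ^ (m + j)) =>
      μ).IsMulLeftInvariant := inferInstance
    have i3 : (Measure.pi fun _ : Fin 4 => Measure.pi fun _ : Fin 4 =>
      Measure.pi fun _ : Fin (2 ^ (m + j)) => μ).IsMulLeftInvariant := inferInstance
    have i4 : (Measure.pi fun _ : IE (m + j) => μ).IsMulLeftInvariant := inferInstance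
    have i5 : (Measure.pi fun _ : Fin 4 × Fin 4 =>
      Measure.pi fun _ : IE (m + j) => μ).IsMulLeftInvariant := inferInstance
    have i6 := Measure.prod.instIsMulLeftInvariant
      (μ := Measure.pi fun _ : Fin 4 => Measure.pi fun _ : Fin 4 =>
        Measure.pi fun _ : Fin (2 ^ (m + j)) => μ)
      (ν := Measure.pi fun _ : Fin 4 × Fin 4 => Measure.pi fun _ : IE (m + j) => μ)
    have hmp := mp_hom ((Measure.pi fun _ : Fin 4 => Measure.pi fun _ : Fin 4 =>
      Measure.pi fun _ : Fin (2 ^ (m + j)) => μ).prod (Measure.pi fun _ : Fin 4 × Fin 4 =>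
        Measure.pi fun _ : IE (m + j) => μ)) (Measure.pi fun _ : IE (m + j + 1) => μ) φ hφ hs
    have hwc : Continuous fun I : IE (m + j + 1) → G =>
        wB W (Sum.elim V I : Ed (m + j + 1) → G) := by
      refine (wB_cont hW).comp (continuous_pi fun e => ?_)
      rcases e with e | e
      · exact continuous_const
      · exact continuous_apply e
    change 0 ≤ ∫ I : IE (m + j + 1) → G, wB W (Sum.elim V I : Ed (m + j + 1) → G)
      ∂(Measure.pi fun _ => μ)
    rw [int_mp hmp hwc]
    have hcs : Continuous fun p => wB W (Sum.elim V (φ p) : Ed (m + j + 1) → G) := hwc.comp hφ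
    rw [integral_prod _ (hcs.integrable_of_hasCompactSupport
      (HasCompactSupport.of_compactSpace _))]
    refine integral_nonneg fun M => ?_
    have h2 : ∀ J : (Fin 4 × Fin 4) → IE (m + j) → G,
        wB W (Sum.elim V (φ (M, J)) : Ed (m + j + 1) → G) =
        ∏ x : Fin 4 × Fin 4, wB (fun γ => W (x.1, x.2, γ))
          (Sum.elim (sub V (fun y => M y.1 y.2.1 y.2.2) x.1 x.2)
          (J x) : Ed (m + j) → G) := fun J =>
      wB_succ W V (fun y => M y.1 y.2.1 y.2.2) (fun y => J (y.1, y.2.1) y.2.2)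
    beta_reduce
    simp only [h2]
    rw [integral_fintype_prod_eq_prod (fun (x : Fin 4 × Fin 4) (I : IE (m + j) → G) =>
      wB (fun γ => W (x.1, x.2, γ))
        (Sum.elim (sub V (fun y => M y.1 y.2.1 y.2.2) x.1 x.2) I : Ed (m + j) → G))]
    exact Finset.prod_nonneg fun x _ => ih x.1 x.2 _

/-- the integral over all the variables -/
lemma int_nonneg_of_Ib {n : ℕ} {A : (Ed n → G) → ℝ} (hA : Continuous A)
    (h : ∀ V, 0 ≤ Ib μ A V) : 0 ≤ ∫ U : Ed n → G, A U ∂(Measure.pi fun _ => μ) := by
  let φ : ((BE n → G) × (IE n → G)) →* (Ed n → G) :=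
    { toFun := fun p => Sum.elim p.1 p.2
      map_one' := by
        funext e
        rcases e with e | e <;> rfl
      map_mul' := fun p q => by
        funext e
        rcases e with e | e <;> rfl }
  have hφ : Continuous φ := elim_cont
  have hs : Function.Surjective φ := fun I => ⟨(fun e => I (.inl e), fun e => I (.inr e)), by
    funext e
    rcases e with e | e <;> rfl⟩
  have i1 : (Measure.pi fun _ : BE n => μ).IsMulLeftInvariant := inferInstance
  have i2 : (Measure.pi fun _ : IE n => μ).IsMulLeftInvariant := inferInstance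
  have i3 := Measure.prod.instIsMulLeftInvariant (μ := Measure.pi fun _ : BE n => μ)
    (ν := Measure.pi fun _ : IE n => μ)
  have hmp := mp_hom ((Measure.pi fun _ : BE n => μ).prod (Measure.pi fun _ : IE n => μ))
    (Measure.pi fun _ : Ed n => μ) φ hφ hs
  rw [int_mp hmp hA]
  have hcs : Continuous fun p => A (φ p) := hA.comp hφ
  rw [integral_prod _ (hcs.integrable_of_hasCompactSupport
    (HasCompactSupport.of_compactSpace _))]
  exact integral_nonneg fun V => h V

lemma shw_cont {w : G → ℝ} (hw : Continuous w) {m : ℕ} :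
    Continuous fun X : Sh m → G => shw w X := by
  unfold shw
  exact continuous_finsetProd _ fun q _ => (wt_cont hw).comp (continuous_pi fun e =>
    continuous_apply _)

/-- the conditional form of reflection positivity -/
lemma rp_cond {w : G → ℝ} (hw : Continuous w) {m : ℕ} {O : (Sh m → G) × (Sh m → G) → ℝ}
    (hO : Continuous O) (V : BE (m + 1) → G) :
    0 ≤ Ib μ (fun U : Ed (m + 1) → G =>
      (O (fun e => U (sh 0 e), fun e => U (sh 1 e)) *
        O (fun e => U (sh 2 e), fun e => U (sh 3 e))) * wt w U) V := by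
  let Y := ((Fin 4 × Fin (2 ^ m)) ⊕ (Fin 4 × IE m)) → G
  let φ : ((Y × Y) × (Y × Y)) →* (IE (m + 1) → G) :=
    { toFun := fun p => (Sum.elim
          (fun x => (![p.1.1, p.1.2, p.2.1, p.2.2] : Fin 4 → Y) x.1 (.inl x.2))
          (fun x => (![p.1.1, p.1.2, p.2.1, p.2.2] : Fin 4 → Y) x.1 (.inr x.2)) :
          (Fin 4 × Fin 4 × Fin (2 ^ m)) ⊕ (Fin 4 × Fin 4 × IE m) → G)
      map_one' := by
        funext e
        rcases e with ⟨a, b⟩ | ⟨a, b⟩ <;> fin_cases a <;> rfl
      map_mul' := fun p q => by
        funext e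
        rcases e with ⟨a, b⟩ | ⟨a, b⟩ <;> fin_cases a <;> rfl }
  have hφ : Continuous φ := by
    refine continuous_pi fun e => ?_
    rcases e with ⟨a, b⟩ | ⟨a, b⟩
    · fin_cases a
      · exact (continuous_apply (Sum.inl b)).comp (continuous_fst.comp continuous_fst)
      · exact (continuous_apply (Sum.inl b)).comp (continuous_snd.comp continuous_fst)
      · exact (continuous_apply (Sum.inl b)).comp (continuous_fst.comp continuous_snd)
      · exact (continuous_apply (Sum.inl b)).comp (continuous_snd.comp continuous_snd)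
    · fin_cases a
      · exact (continuous_apply (Sum.inr b)).comp (continuous_fst.comp continuous_fst)
      · exact (continuous_apply (Sum.inr b)).comp (continuous_snd.comp continuous_fst)
      · exact (continuous_apply (Sum.inr b)).comp (continuous_fst.comp continuous_snd)
      · exact (continuous_apply (Sum.inr b)).comp (continuous_snd.comp continuous_snd)
  have hs : Function.Surjective φ := fun I => ⟨((fun e => match e with
      | .inl b => I (.inl (0, b))
      | .inr b => I (.inr (0, b)), fun e => match e with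
      | .inl b => I (.inl (1, b))
      | .inr b => I (.inr (1, b))), (fun e => match e with
      | .inl b => I (.inl (2, b))
      | .inr b => I (.inr (2, b)), fun e => match e with
      | .inl b => I (.inl (3, b))
      | .inr b => I (.inr (3, b)))), by
      funext e
      rcases e with ⟨a, b⟩ | ⟨a, b⟩ <;> fin_cases a <;> rfl⟩
  have i1 : (Measure.pi fun _ : (Fin 4 × Fin (2 ^ m)) ⊕ (Fin 4 × IE m) =>
    μ).IsMulLeftInvariant := inferInstance
  have i2 := Measure.prod.instIsMulLeftInvariant
    (μ := Measure.pi fun _ : (Fin 4 × Fin (2 ^ m)) ⊕ (Fin 4 × IE m) => μ)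
    (ν := Measure.pi fun _ : (Fin 4 × Fin (2 ^ m)) ⊕ (Fin 4 × IE m) => μ)
  have i3 := Measure.prod.instIsMulLeftInvariant
    (μ := (Measure.pi fun _ : (Fin 4 × Fin (2 ^ m)) ⊕ (Fin 4 × IE m) => μ).prod
      (Measure.pi fun _ : (Fin 4 × Fin (2 ^ m)) ⊕ (Fin 4 × IE m) => μ))
    (ν := (Measure.pi fun _ : (Fin 4 × Fin (2 ^ m)) ⊕ (Fin 4 × IE m) => μ).prod
      (Measure.pi fun _ : (Fin 4 × Fin (2 ^ m)) ⊕ (Fin 4 × IE m) => μ))
  have hmp := mp_hom (((Measure.pi fun _ : (Fin 4 × Fin (2 ^ m)) ⊕ (Fin 4 × IE m) => μ).prod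
      (Measure.pi fun _ : (Fin 4 × Fin (2 ^ m)) ⊕ (Fin 4 × IE m) => μ)).prod
    ((Measure.pi fun _ : (Fin 4 × Fin (2 ^ m)) ⊕ (Fin 4 × IE m) => μ).prod
      (Measure.pi fun _ : (Fin 4 × Fin (2 ^ m)) ⊕ (Fin 4 × IE m) => μ)))
    (Measure.pi fun _ : IE (m + 1) => μ) φ hφ hs
  have hOc : Continuous fun U : Ed (m + 1) → G =>
      (O (fun e => U (sh 0 e), fun e => U (sh 1 e)) *
        O (fun e => U (sh 2 e), fun e => U (sh 3 e))) * wt w U := by
    refine Continuous.mul (Continuous.mul (hO.comp ?_) (hO.comp ?_)) (wt_cont hw)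
    · exact (continuous_pi fun e => continuous_apply _).prodMk
        (continuous_pi fun e => continuous_apply _)
    · exact (continuous_pi fun e => continuous_apply _).prodMk
        (continuous_pi fun e => continuous_apply _)
  have hc : Continuous fun I : IE (m + 1) → G => (fun U : Ed (m + 1) → G =>
      (O (fun e => U (sh 0 e), fun e => U (sh 1 e)) *
        O (fun e => U (sh 2 e), fun e => U (sh 3 e))) * wt w U)
          (Sum.elim V I : Ed (m + 1) → G) := by
    refine hOc.comp (continuous_pi fun e => ?_)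
    rcases e with e | e
    · exact continuous_const
    · exact continuous_apply _
  unfold Ib
  rw [int_mp hmp hc]
  obtain ⟨g, hg⟩ : ∃ g : Y × Y → ℝ, g = fun p => O (Sum.elim V p.1, Sum.elim V p.2) *
    (shw w (Sum.elim V p.1 : Sh m → G) * shw w (Sum.elim V p.2 : Sh m → G)) := ⟨_, rfl⟩
  have e1 : ∀ (p : (Y × Y) × (Y × Y)) (s : Fin 4),
      (fun e => (Sum.elim V (φ p) : Ed (m + 1) → G) (sh s e)) =
        (Sum.elim V ((![p.1.1, p.1.2, p.2.1, p.2.2] : Fin 4 → Y) s) : Sh m → G) := by
    intro p s
    funext e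
    rcases e with e | ⟨j, c⟩ | ⟨q, e⟩ <;> rfl
  have e2 : ∀ p : (Y × Y) × (Y × Y), (fun U : Ed (m + 1) → G =>
      (O (fun e => U (sh 0 e), fun e => U (sh 1 e)) *
        O (fun e => U (sh 2 e), fun e => U (sh 3 e))) * wt w U)
          (Sum.elim V (φ p) : Ed (m + 1) → G) = g p.1 * g p.2 := by
    intro p
    beta_reduce
    rw [wt_sh, Fin.prod_univ_four]
    simp only [e1]
    rw [hg]
    simp only [Matrix.cons_val_zero, Matrix.cons_val_one, Matrix.cons_val]
    ring
  simp only [e2]
  rw [integral_prod_mul]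
  exact mul_self_nonneg _

/-- **Reflection positivity** -/
theorem rp_weight {w : G → ℝ} (hw : Continuous w) (hp : ∀ x, 0 ≤ w x) (m d : ℕ) (β : Pq d)
    {O : (Sh m → G) × (Sh m → G) → ℝ} (hO : Continuous O) :
    0 ≤ Ex μ w (m + 1 + d) (fun U =>
      O (shf β 0 U, shf β 1 U) * O (shf β 2 U, shf β 3 U)) := by
  classical
  have hwt : ∀ (n : ℕ) (U : Ed n → G), 0 ≤ wt w U := fun n U => by
    unfold wt
    exact Finset.prod_nonneg fun p _ => hp _
  obtain ⟨W, hW⟩ : ∃ W : Pq d → (Ed (m + 1) → G) → ℝ, W = fun γ u =>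
    (if γ = β then O (fun e => u (sh 0 e), fun e => u (sh 1 e)) *
      O (fun e => u (sh 2 e), fun e => u (sh 3 e)) else 1) * wt w u := ⟨_, rfl⟩
  have hOc : Continuous fun u : Ed (m + 1) → G => O (fun e => u (sh 0 e), fun e => u (sh 1 e)) *
      O (fun e => u (sh 2 e), fun e => u (sh 3 e)) := by
    refine (hO.comp ?_).mul (hO.comp ?_)
    · exact (continuous_pi fun e => continuous_apply _).prodMk
        (continuous_pi fun e => continuous_apply _)
    · exact (continuous_pi fun e => continuous_apply _).prodMk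
        (continuous_pi fun e => continuous_apply _)
  have hWc : ∀ γ, Continuous (W γ) := by
    intro γ
    rw [hW]
    refine Continuous.mul ?_ (wt_cont hw)
    by_cases h : γ = β
    · simpa only [h, if_true] using hOc
    · simpa only [h, if_false] using continuous_const
  have hI : ∀ γ V, 0 ≤ Ib μ (W γ) V := by
    intro γ V
    rw [hW]
    by_cases h : γ = β
    · simp only [if_pos h]
      exact rp_cond hw hO V
    · simp only [if_neg h, one_mul]
      unfold Ib
      exact integral_nonneg fun I => hwt _ _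
  have h1 := int_nonneg_of_Ib (μ := μ) (wB_cont hWc) fun V => Ib_wB_nonneg d hWc hI V
  have h2 : ∀ U : Ed (m + 1 + d) → G,
      (O (shf β 0 U, shf β 1 U) * O (shf β 2 U, shf β 3 U)) * wt w U = wB W U := by
    intro U
    rw [wt_blk w d U]
    unfold wB
    rw [hW]
    beta_reduce
    rw [Finset.prod_mul_distrib]
    congr 1
    rw [Finset.prod_eq_single β (fun γ _ h => if_neg h) (fun h => absurd (Finset.mem_univ _) h),
      if_pos rfl]
    rfl
  unfold Ex
  refine div_nonneg ?_ (integral_nonneg fun U => hwt _ _)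
  simp only [h2]
  exact h1

end

end Pool.Agent.N109.RP
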